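import Mathlib
import Pool.Agent.CurLef.Main

/-!
For the group `SL₂` and every positive braid `β = σⁿ` the varieties `𝒰(β)` and `𝒵(β)` do not have
the curious Lefschetz property, whatever (even) weight it is centred at.
-/

namespace Pool.Agent.Results.MP_e6bb1c_ag.NoLefschetzSL2

open Pool.Agent.CurLef Polynomial

theorem result (F : Type) [Field F] [Finite F] (n : ℕ)
    (E : Type) [Field E] [IsAlgClosed E] (ι : E →+* ℂ) (M : GradedFrob E)
    (h : M.TraceFormula F (UPoints n) ∨ M.TraceFormula F (ZPoints n)) (d : ℤ) (hd : Even d) :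
    ¬ M.LefschetzSymmetric ι (Nat.card F) d := by
  rcases h with h | h
  · refine M.not_symmetric ι h (X ^ (n + 2) + C ((-1) ^ n) * X ^ 1) ?_ n ?_ ?_ ?_ ?_ d hd
    · intro K _ _
      rw [card_UPoints]
      simp
    · intro e he
      rw [coeff_add, coeff_C_mul, coeff_X_pow, coeff_X_pow, if_neg (by omega), if_neg (by omega)]
      simp
    · rw [coeff_add, coeff_C_mul, coeff_X_pow, coeff_X_pow, if_neg (by omega), if_neg (by omega)]
      simp
    · rw [coeff_add, coeff_C_mul, coeff_X_pow, coeff_X_pow, if_pos rfl, if_neg (by omega)]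
      simp
    · rw [coeff_add, coeff_C_mul, coeff_X_pow, coeff_X_pow, coeff_add, coeff_C_mul, coeff_X_pow,
        coeff_X_pow, if_neg (by omega), if_pos rfl, if_pos rfl, if_neg (by omega)]
      simp
  · refine M.not_symmetric ι h
      (X ^ (n + 2) + X ^ (n + 1) + C ((-1) ^ n) * (X ^ 2 + X ^ 1)) ?_ n ?_ ?_ ?_ ?_ d hd
    · intro K _ _
      rw [card_ZPoints]
      simp
    · intro e he
      simp only [coeff_add, coeff_C_mul, coeff_X_pow]
      rw [if_neg (by omega), if_neg (by omega), if_neg (by omega), if_neg (by omega)]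
      simp
    · simp only [coeff_add, coeff_C_mul, coeff_X_pow]
      rw [if_neg (by omega), if_neg (by omega), if_neg (by omega), if_neg (by omega)]
      simp
    · simp only [coeff_add, coeff_C_mul, coeff_X_pow]
      rcases Nat.eq_zero_or_pos n with rfl | hn
      · norm_num
      · rw [if_neg (show ¬ n + 2 = n + 1 by omega), if_neg (show ¬ n + 2 = 2 by omega),
          if_neg (show ¬ n + 2 = 1 by omega)]
        simp
    · simp only [coeff_add, coeff_C_mul, coeff_X_pow]
      rcases Nat.eq_zero_or_pos n with rfl | hn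
      · norm_num
      · rw [if_neg (show ¬ 1 = n + 2 by omega), if_neg (show ¬ 1 = n + 1 by omega),
          if_neg (show ¬ 1 = 2 by omega), if_neg (show ¬ n + 2 = n + 1 by omega),
          if_neg (show ¬ n + 2 = 2 by omega), if_neg (show ¬ n + 2 = 1 by omega)]
        simp

end Pool.Agent.Results.MP_e6bb1c_ag.NoLefschetzSL2
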